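import Pool.Agent.Q303.FWM.Main

set_option autoImplicit false

open Set Topology Filter

namespace Pool.Agent.Q303.FWM

open Pool.Agent.Q303.FW

lemma wf_of_tree {T : Type} [PartialOrder T]
    (ht : ∀ x : T, IsWellOrder {y : T // y < x} (· < ·)) : WellFounded (α := T) (· < ·) := by
  rw [WellFounded.wellFounded_iff_has_min]
  rintro s ⟨x, hx⟩
  by_cases h : ∃ y ∈ s, y < x
  · haveI := ht x
    have hw : WellFounded (fun a b : {y : T // y < x} => a < b) := IsWellFounded.wf
    obtain ⟨y, hy, hyx⟩ := h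
    have hne : ({z | z.1 ∈ s} : Set {y : T // y < x}).Nonempty := ⟨⟨y, hyx⟩, hy⟩
    refine ⟨(hw.min _ hne).1, hw.min_mem _ hne, fun z hz hlt => ?_⟩
    exact hw.not_lt_min {z | z.1 ∈ s} (x := ⟨z, hlt.trans (hw.min _ hne).2⟩) hz hlt
  · push Not at h
    exact ⟨x, hx, fun y hy hyx => h y hy hyx⟩

lemma small_of (hCCC : TaskCCC) (hUnc : TaskUnc) (hMA : TaskMA) (ma : MA1) {T : Type}
    [PartialOrder T] [TopologicalSpace T] [LindelofSpace T]
    (hT : ‹TopologicalSpace T› = fineWedge T)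
    (ht : ∀ x : T, IsWellOrder {y : T // y < x} (· < ·)) : Small T := by
  have hwf := wf_of_tree ht
  intro X A hX hA hbr
  have h1 : ∀ u, ∃ f : T → ℕ, InjOn f (A u) := fun u => countable_iff_exists_injOn.1 (hA u)
  choose e he using h1
  have hcomp : ∀ a b x : T, a ≤ x → b ≤ x → a ≤ b ∨ b ≤ a := fun a b x ha hb =>
    (comparable ht ha hb).imp id le_of_lt
  obtain ⟨Y, g, hYX, hYc, hY⟩ := hMA hCCC hUnc ma T X A e hcomp
    (fun x => countable_chain hT hwf (fun a ha b hb => comparable ht ha hb)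
      (fun a ha b hb => hb.trans ha))
    (by
      intro C hC
      refine (countable_chain hT hwf (C := {z | ∃ c ∈ C, z ≤ c}) ?_ ?_).mono
        (fun c hc => (⟨c, hc, le_rfl⟩ : ∃ c' ∈ C, c ≤ c'))
      · rintro a ⟨c, hc, hac⟩ b ⟨c', hc', hbc⟩
        rcases hC.total hc hc' with h | h
        · exact comparable ht (hac.trans h) hbc
        · exact comparable ht hac (hbc.trans h)
      · rintro a ⟨c, hc, hac⟩ b hb
        exact ⟨c, hc, hb.trans hac⟩)
    hX hbr
  apply hYc
  refine (countable_follow hT (fun u => {d ∈ A u | u < d ∧ e u d ≤ g u}) ?_ ?_).mono ?_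
  · intro u
    refine Set.Finite.of_finite_image (f := e u) ?_ ((he u).mono fun d hd => hd.1)
    exact (finite_Iic (g u)).subset (by rintro _ ⟨d, hd, rfl⟩; exact hd.2.2)
  · intro u d hd
    exact not_le_of_gt hd.2.1
  · intro x hx u hu
    obtain ⟨d, hd, h2, h3, h4⟩ := hY x hx u hu
    exact ⟨d, ⟨hd, h2, h4⟩, h3⟩

end Pool.Agent.Q303.FWM
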