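import Pool.Agent.Q303.FWM.Stmts
import Pool.Agent.Q303.FW.Pos

/-!
# Squares of Lindelöf trees under Martin's axiom: the main argument
-/

set_option autoImplicit false

open Set Topology Filter

namespace Pool.Agent.Q303.FWM

open Pool.Agent.Q303.FW

section

variable {T : Type} [PartialOrder T] [TopologicalSpace T] [LindelofSpace T]

lemma countable_follow (hT : ‹TopologicalSpace T› = fineWedge T) (F : T → Set T)
    (hF : ∀ u, (F u).Finite) (hF' : ∀ u, ∀ d ∈ F u, ¬ d ≤ u) :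
    {x : T | ∀ u < x, ∃ d ∈ F u, d ≤ x}.Countable := by
  have hL : IsLindelof (univ : Set T) := isLindelof_univ
  obtain ⟨C, hC, hsub⟩ := hL.elim_countable_subcover (fun u : T => WW u (F u))
    (fun u => isOpen_WW hT u (hF u))
    (fun u _ => mem_iUnion.2 ⟨u, le_rfl, fun a ha => hF' u a ha⟩)
  refine hC.mono ?_
  intro x hx
  obtain ⟨u, hu, h1, h2⟩ := mem_iUnion₂.1 (hsub (mem_univ x))
  rcases h1.eq_or_lt with h | h
  · rw [← h]
    exact hu
  · obtain ⟨d, hd, hdx⟩ := hx u h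
    exact absurd hdx (h2 d hd)

lemma countable_chain (hT : ‹TopologicalSpace T› = fineWedge T)
    (hwf : WellFounded (α := T) (· < ·)) {C : Set T} (hC : ∀ a ∈ C, ∀ b ∈ C, a ≤ b ∨ b < a)
    (hl : ∀ a ∈ C, ∀ b ≤ a, b ∈ C) : C.Countable := by
  classical
  let F : T → Set T := fun u => if h : ({d ∈ C | u < d} : Set T).Nonempty then {hwf.min _ h} else ∅
  refine (countable_follow hT F ?_ ?_).mono ?_
  · intro u
    simp only [F]
    split_ifs <;> simp
  · intro u d hd
    simp only [F] at hd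
    split_ifs at hd with h
    · have h1 : d = hwf.min _ h := hd
      have h2 := hwf.min_mem _ h
      rw [h1]
      exact not_le_of_gt h2.2
    · exact absurd hd (by simp)
  · intro x hx u hu
    have h : ({d ∈ C | u < d} : Set T).Nonempty := ⟨x, hx, hu⟩
    refine ⟨hwf.min _ h, ?_, ?_⟩
    · simp only [F]
      rw [dif_pos h]
      rfl
    · have h2 := hwf.min_mem _ h
      rcases hC _ h2.1 x hx with h3 | h3
      · exact h3
      · exact absurd h3 (hwf.not_lt_min {d ∈ C | u < d} (x := x) ⟨hx, hu⟩)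

/-- the closure of a set under a binary operation with values sets -/
def clN (O : T → T → Set T) (A : Set T) : ℕ → Set T
  | 0 => A
  | n + 1 => clN O A n ∪ ⋃ s ∈ clN O A n, ⋃ t ∈ clN O A n, O s t

def cl (O : T → T → Set T) (A : Set T) : Set T := ⋃ n, clN O A n

omit [PartialOrder T] [TopologicalSpace T] [LindelofSpace T] in
lemma clN_mono (O : T → T → Set T) (A : Set T) : Monotone (clN O A) :=
  monotone_nat_of_le_succ fun n => subset_union_left

omit [PartialOrder T] [TopologicalSpace T] [LindelofSpace T] in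
lemma subset_cl (O : T → T → Set T) (A : Set T) : A ⊆ cl O A := subset_iUnion (clN O A) 0

omit [PartialOrder T] [TopologicalSpace T] [LindelofSpace T] in
lemma cl_closed (O : T → T → Set T) (A : Set T) {s t : T} (hs : s ∈ cl O A) (ht : t ∈ cl O A) :
    O s t ⊆ cl O A := by
  obtain ⟨m, hm⟩ := mem_iUnion.1 hs
  obtain ⟨n, hn⟩ := mem_iUnion.1 ht
  have hm' := clN_mono O A (le_max_left m n) hm
  have hn' := clN_mono O A (le_max_right m n) hn
  intro z hz
  refine mem_iUnion.2 ⟨max m n + 1, Or.inr ?_⟩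
  exact mem_iUnion₂.2 ⟨s, hm', mem_iUnion₂.2 ⟨t, hn', hz⟩⟩

omit [PartialOrder T] [TopologicalSpace T] [LindelofSpace T] in
lemma countable_cl (O : T → T → Set T) (hO : ∀ s t, (O s t).Countable) {A : Set T}
    (hA : A.Countable) : (cl O A).Countable := by
  refine countable_iUnion fun n => ?_
  induction n with
  | zero => exact hA
  | succ n ih => exact ih.union (ih.biUnion fun s _ => ih.biUnion fun t _ => hO s t)

/-- the conclusion of the forcing argument -/
def Small (T : Type) [PartialOrder T] : Prop := ∀ (X : Set T) (A : T → Set T),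
  Cardinal.mk X = Cardinal.aleph 1 → (∀ u, (A u).Countable) →
    ¬ ∀ x ∈ X, ∀ u, u < x → ∃ d ∈ A u, u < d ∧ d ≤ x

/-- **The main argument.** -/
theorem square (hS : Small T) (hT : ‹TopologicalSpace T› = fineWedge T)
    (ht : ∀ x : T, IsWellOrder {y : T // y < x} (· < ·))
    (hwf : WellFounded (α := T) (· < ·)) : LindelofSpace (T × T) := by
  have hIic : ∀ x : T, (Iic x).Countable := fun x =>
    countable_chain hT hwf (fun a ha b hb => comparable ht ha hb) (fun a ha b hb => hb.trans ha)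
  constructor
  apply isLindelof_of_countable_subcover
  intro ι U hU hcov
  by_contra hno
  have h1 : ∀ p : T × T, ∃ (i : ι) (F G : Set T), F.Finite ∧ G.Finite ∧
      (∀ a ∈ F, ¬ a ≤ p.1) ∧ (∀ a ∈ G, ¬ a ≤ p.2) ∧ WW p.1 F ×ˢ WW p.2 G ⊆ U i := by
    rintro ⟨s, t⟩
    obtain ⟨i, hi⟩ := mem_iUnion.1 (hcov (mem_univ (s, t)))
    obtain ⟨u, v, hu, hv, hsu, htv, huv⟩ := isOpen_prod_iff.1 (hU i) s t hi
    obtain ⟨F, hF1, hF2, hF3⟩ := exists_WW hT hu hsu
    obtain ⟨G, hG1, hG2, hG3⟩ := exists_WW hT hv htv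
    exact ⟨i, F, G, hF1, hG1, hF2, hG2, (Set.prod_mono hF3 hG3).trans huv⟩
  choose i0 F G hF hG hFs hGs hbox using h1
  have h2 : ∀ x : T, ∃ r : Set ι, r.Countable ∧ ({x} ×ˢ univ ⊆ ⋃ i ∈ r, U i) := by
    intro x
    have h3 : IsLindelof ({x} ×ˢ (univ : Set T)) := by
      have e : ({x} ×ˢ (univ : Set T) : Set (T × T)) = (fun y => (x, y)) '' univ := by
        ext ⟨p, q⟩
        simp [Prod.ext_iff, eq_comm]
      rw [e]
      exact isLindelof_univ.image (by fun_prop)
    exact h3.elim_countable_subcover U hU ((subset_univ _).trans hcov)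
  have h2' : ∀ x : T, ∃ r : Set ι, r.Countable ∧ (univ ×ˢ {x} ⊆ ⋃ i ∈ r, U i) := by
    intro x
    have h3 : IsLindelof ((univ : Set T) ×ˢ {x}) := by
      have e : ((univ : Set T) ×ˢ {x} : Set (T × T)) = (fun y => (y, x)) '' univ := by
        ext ⟨p, q⟩
        simp [Prod.ext_iff, eq_comm]
      rw [e]
      exact isLindelof_univ.image (by fun_prop)
    exact h3.elim_countable_subcover U hU ((subset_univ _).trans hcov)
  choose rx hrx hrx' using h2
  choose ry hry hry' using h2'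
  let unc : Set T → T → T → Prop := fun A x y =>
    ∀ s ∈ A, ∀ t ∈ A, ¬ ((x, y) ∈ WW s (F (s, t)) ×ˢ WW t (G (s, t)))
  have hunc : ∀ A : Set T, ∃ w : T × T, A.Countable → w.1 ∉ A ∧ w.2 ∉ A ∧ unc A w.1 w.2 := by
    intro A
    by_cases hA : A.Countable
    · by_contra hcon
      push Not at hcon
      apply hno
      refine ⟨(i0 '' (A ×ˢ A)) ∪ ((⋃ x ∈ A, rx x) ∪ ⋃ y ∈ A, ry y),
        ((hA.prod hA).image _).union
          ((hA.biUnion fun x _ => hrx x).union (hA.biUnion fun y _ => hry y)), ?_⟩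
      rintro ⟨x, y⟩ -
      rw [mem_iUnion₂]
      by_cases hx : x ∈ A
      · obtain ⟨i, hi, hi'⟩ := mem_iUnion₂.1 (hrx' x (⟨rfl, mem_univ y⟩ : (x, y) ∈ {x} ×ˢ univ))
        exact ⟨i, Or.inr (Or.inl (mem_iUnion₂.2 ⟨x, hx, hi⟩)), hi'⟩
      by_cases hy : y ∈ A
      · obtain ⟨i, hi, hi'⟩ := mem_iUnion₂.1 (hry' y (⟨mem_univ x, rfl⟩ : (x, y) ∈ univ ×ˢ {y}))
        exact ⟨i, Or.inr (Or.inr (mem_iUnion₂.2 ⟨y, hy, hi⟩)), hi'⟩
      have h3 : ¬ unc A x y := (hcon (x, y)).2 hx hy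
      simp only [unc] at h3
      push Not at h3
      obtain ⟨s, hs, t, ht', h4⟩ := h3
      exact ⟨i0 (s, t), Or.inl ⟨(s, t), ⟨hs, ht'⟩, rfl⟩, hbox (s, t) h4⟩
    · exact ⟨(Classical.choice (by
        by_contra hemp
        rw [not_nonempty_iff] at hemp
        exact hA (Set.Subsingleton.countable (fun a _ => hemp.elim a))),
        Classical.choice (by
        by_contra hemp
        rw [not_nonempty_iff] at hemp
        exact hA (Set.Subsingleton.countable (fun a _ => hemp.elim a)))),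
        fun h => absurd h hA⟩
  choose N hN using hunc
  -- the closed sets
  let S2 : T → Set T := fun u => {z | ∀ v < z, ∃ b ∈ G (u, v), b ≤ z}
  have hS2 : ∀ u, (S2 u).Countable := fun u =>
    countable_follow hT (fun v => G (u, v)) (fun v => hG _) (fun v d hd => hGs (u, v) d hd)
  let O : T → T → Set T := fun s t => (F (s, t) ∪ G (s, t)) ∪ (Iic s ∪ S2 s)
  have hO : ∀ s t, (O s t).Countable := fun s t =>
    ((hF _).countable.union (hG _).countable).union ((hIic s).union (hS2 s))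
  let Cld : Set T → Prop := fun A => ∀ s ∈ A, ∀ t ∈ A, O s t ⊆ A
  have hlow : ∀ A, Cld A → ∀ a ∈ A, ∀ b ≤ a, b ∈ A := fun A hA a ha b hb =>
    hA a ha a ha (Or.inr (Or.inl hb))
  -- limits
  have hlim : ∀ A : Set T, Cld A → ∀ x y : T, x ∉ A → y ∉ A → unc A x y →
      ∀ u ∈ A, u < x → ∃ a ∈ A, u < a ∧ a ≤ x := by
    intro A hA x y hx hy hun u hu hux
    by_contra hcon
    push Not at hcon
    have hne : ({z | z ≤ y ∧ z ∉ A} : Set T).Nonempty := ⟨y, le_rfl, hy⟩
    set y' := hwf.min _ hne with hy'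
    have hy1 := hwf.min_mem _ hne
    have hy2 : ∀ v < y', v ∈ A := by
      intro v hv
      by_contra hc
      exact hwf.not_lt_min {z | z ≤ y ∧ z ∉ A} (x := v) ⟨hv.le.trans hy1.1, hc⟩ hv
    apply hy1.2
    refine hA u hu u hu (Or.inr (Or.inr ?_))
    intro v hv
    have hvA := hy2 v hv
    have h4 := hun u hu v hvA
    by_contra h5
    push Not at h5
    apply h4
    refine ⟨⟨hux.le, fun a ha hax => ?_⟩, ⟨hv.le.trans hy1.1, fun b hb hby => ?_⟩⟩
    · have haA : a ∈ A := hA u hu v hvA (Or.inl (Or.inl ha))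
      rcases comparable ht hax hux.le with h | h
      · exact hFs (u, v) a ha h
      · exact hcon a haA h hax
    · have hbA : b ∈ A := hA u hu v hvA (Or.inl (Or.inr hb))
      rcases comparable ht hby hy1.1 with h | h
      · exact h5 b hb h
      · exact hy1.2 (hlow A hA b hbA _ h.le)
  -- the next point
  have hf : ∀ A : Set T, ∃ f : T, A.Countable → Cld A → f ∉ A ∧ (∀ u < f, u ∈ A) ∧
      ∀ B ⊆ A, Cld B → ∀ u ∈ B, u < f → ∃ a ∈ B, u < a ∧ a ≤ f := by
    intro A
    by_cases hA : A.Countable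
    · by_cases hcl : Cld A
      · obtain ⟨h3, h4, h5⟩ := hN A hA
        have hne : ({z | z ≤ (N A).1 ∧ z ∉ A} : Set T).Nonempty := ⟨_, le_rfl, h3⟩
        have hy1 := hwf.min_mem _ hne
        refine ⟨hwf.min _ hne, fun _ _ => ⟨hy1.2, ?_, ?_⟩⟩
        · intro v hv
          by_contra hc
          exact hwf.not_lt_min {z | z ≤ (N A).1 ∧ z ∉ A} (x := v) ⟨hv.le.trans hy1.1, hc⟩ hv
        · intro B hBA hB u hu hux
          obtain ⟨a, ha, h6, h7⟩ := hlim B hB (N A).1 (N A).2 (fun h => h3 (hBA h))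
            (fun h => h4 (hBA h)) (fun s hs t ht' => h5 s (hBA hs) t (hBA ht')) u hu
            (hux.trans_le hy1.1)
          refine ⟨a, ha, h6, ?_⟩
          rcases comparable ht h7 hy1.1 with h | h
          · exact h
          · exact absurd (hlow A hcl a (hBA ha) _ h.le) hy1.2
      · exact ⟨(N A).1, fun _ h => absurd h hcl⟩
    · exact ⟨(N A).1, fun h => absurd h hA⟩
  choose f hf using hf
  -- the recursion
  let Ω : Type := (Cardinal.aleph 1 : Cardinal.{0}).ord.ToType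
  have hΩc : ∀ α : Ω, (Iio α).Countable := by
    intro α
    have := Cardinal.mk_Iio_toType_ord_lt (c := Cardinal.aleph 1) α
    exact (Cardinal.countable_iff_lt_aleph_one _).2 this
  have hΩ : WellFounded (α := Ω) (· < ·) := wellFounded_lt
  let 𝒜 : Ω → Set T := hΩ.fix fun α ih => cl O (⋃ β : {β : Ω // β < α}, ih β.1 β.2 ∪ {f (ih β.1 β.2)})
  have h𝒜 : ∀ α, 𝒜 α = cl O (⋃ β : {β : Ω // β < α}, 𝒜 β.1 ∪ {f (𝒜 β.1)}) := by
    intro α
    exact hΩ.fix_eq _ α
  have hcount : ∀ α, (𝒜 α).Countable := by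
    intro α
    induction α using hΩ.induction with
    | h α ih =>
      rw [h𝒜]
      refine countable_cl O hO ?_
      haveI : Countable {β : Ω // β < α} := (hΩc α).to_subtype
      exact countable_iUnion fun β => (ih β.1 β.2).union (countable_singleton _)
  have hcld : ∀ α, Cld (𝒜 α) := by
    intro α s hs t ht'
    rw [h𝒜] at hs ht' ⊢
    exact cl_closed O _ hs ht'
  have hmono : ∀ β α, β < α → 𝒜 β ∪ {f (𝒜 β)} ⊆ 𝒜 α := by
    intro β α hβ
    rw [h𝒜 α]
    exact (subset_iUnion (fun β : {β : Ω // β < α} => 𝒜 β.1 ∪ {f (𝒜 β.1)}) ⟨β, hβ⟩).trans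
      (subset_cl O _)
  have hprop := fun α => hf (𝒜 α) (hcount α) (hcld α)
  have hinj : Function.Injective fun α => f (𝒜 α) := by
    intro α β hαβ
    have hαβ' : f (𝒜 α) = f (𝒜 β) := hαβ
    rcases lt_trichotomy α β with h | h | h
    · exact absurd (hmono α β h (Or.inr rfl)) (hαβ' ▸ (hprop β).1)
    · exact h
    · exact absurd (hmono β α h (Or.inr rfl)) (hαβ' ▸ (hprop α).1)
  classical
  let A : T → Set T := fun u => if h : ({γ | u ∈ 𝒜 γ} : Set Ω).Nonempty then
    𝒜 (hΩ.min _ h) ∪ (fun β => f (𝒜 β)) '' Iic (hΩ.min _ h) else ∅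
  refine hS (range fun α => f (𝒜 α)) A ?_ ?_ ?_
  · rw [Cardinal.mk_range_eq _ hinj]
    exact Cardinal.mk_ord_toType _
  · intro u
    simp only [A]
    split_ifs with h
    · refine (hcount _).union (Set.Countable.image ?_ _)
      rw [← Iio_insert]
      exact (hΩc _).insert _
    · exact countable_empty
  · rintro _ ⟨α, rfl⟩ u hu
    have huα : u ∈ 𝒜 α := (hprop α).2.1 u hu
    have h : ({γ | u ∈ 𝒜 γ} : Set Ω).Nonempty := ⟨α, huα⟩
    have e : A u = 𝒜 (hΩ.min _ h) ∪ (fun β => f (𝒜 β)) '' Iic (hΩ.min _ h) := dif_pos h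
    rw [e]
    have hmin := hΩ.min_mem _ h
    have hle : hΩ.min _ h ≤ α := not_lt.1 (hΩ.not_lt_min {γ | u ∈ 𝒜 γ} (x := α) huα)
    rcases hle.eq_or_lt with h3 | h3
    · exact ⟨f (𝒜 α), Or.inr ⟨α, h3.ge, rfl⟩, hu, le_rfl⟩
    · obtain ⟨a, ha, h4, h5⟩ := (hprop α).2.2 (𝒜 (hΩ.min _ h))
        (fun z hz => hmono _ _ h3 (Or.inl hz)) (hcld _) u hmin hu
      exact ⟨a, Or.inl ha, h4, h5⟩

end

end Pool.Agent.Q303.FWM
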