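import Mathlib

/-!
# Squares of Lindelöf trees under Martin's axiom: statements
-/

set_option autoImplicit false

open Set

namespace Pool.Agent.Q303.FWM

/-- every antichain is countable -/
def CCC (P : Type) [PartialOrder P] : Prop :=
  ∀ A : Set P, (∀ p ∈ A, ∀ q ∈ A, p ≠ q → ¬ ∃ r, r ≤ p ∧ r ≤ q) → A.Countable

/-- Martin's axiom for `ℵ₁` dense sets. -/
def MA1 : Prop := ∀ (P : Type) [PartialOrder P] [Nonempty P], CCC P →
  ∀ D : Set (Set P), Cardinal.mk D ≤ Cardinal.aleph 1 → (∀ d ∈ D, ∀ p, ∃ q ∈ d, q ≤ p) →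
    ∃ G : Set P, (∀ p ∈ G, ∀ q, p ≤ q → q ∈ G) ∧ (∀ p ∈ G, ∀ q ∈ G, ∃ r ∈ G, r ≤ p ∧ r ≤ q) ∧
      ∀ d ∈ D, ∃ p ∈ G, p ∈ d

/-- a node `x` keeps the promise `(u, n)` : if `u < x`, some `d` in the countable set `A u`, with label
at most `n`, satisfies `u < d ≤ x` -/
def Keeps {T : Type} [PartialOrder T] (A : T → Set T) (e : T → T → ℕ) (x u : T) (n : ℕ) : Prop :=
  u < x → ∃ d ∈ A u, u < d ∧ d ≤ x ∧ e u d ≤ n

/-- the finite conditions: a finite set of nodes in `X` and finitely many promises kept by them -/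
structure Cond {T : Type} [PartialOrder T] (X : Set T) (A : T → Set T) (e : T → T → ℕ) where
  nodes : Finset T
  prom : Finset (T × ℕ)
  sub : ∀ x ∈ nodes, x ∈ X
  keeps : ∀ x ∈ nodes, ∀ w ∈ prom, Keeps A e x w.1 w.2

instance {T : Type} [PartialOrder T] (X : Set T) (A : T → Set T) (e : T → T → ℕ) :
    PartialOrder (Cond X A e) where
  le p q := q.nodes ⊆ p.nodes ∧ q.prom ⊆ p.prom
  le_refl p := ⟨Finset.Subset.refl _, Finset.Subset.refl _⟩
  le_trans p q r h1 h2 := ⟨h2.1.trans h1.1, h2.2.trans h1.2⟩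
  le_antisymm p q h1 h2 := by
    cases p
    cases q
    simp only [Cond.mk.injEq]
    exact ⟨Finset.Subset.antisymm h2.1 h1.1, Finset.Subset.antisymm h2.2 h1.2⟩

/-- `FWM.CCC` (80 lines). Suppose an uncountable antichain `𝒜`. Thin out so that the cardinalities of
`nodes` and `prom` are constant. Take a finite set `R ⊆ T` of maximal cardinality such that uncountably
many `p ∈ 𝒜` have `R ⊆ image fst prom`; then each `u ∉ R` is in `image fst prom` for only countably many
of these `p`. Thin out so that `prom ∩ (R × ℕ)` is constant. If `p, q` are incompatible, then some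
`x ∈ p.nodes` is above some `u ∉ R` with `(u, _) ∈ q.prom` (for given `p` only countably many such `q`,
as `Iic x` is countable), or vice versa. So for each `p`, for all but countably many `q` some
`u ∈ image fst p.prom \ R` is below some `x ∈ q.nodes`. Take an ultrafilter below the cocountable
filter and enumerations `Fin n → T` of the `q.nodes`; for each `p` fix `u_p` and `i_p`; uncountably many
`p` have the same `i`; then the `u_p` are an uncountable chain. -/
def TaskCCC : Prop := ∀ (T : Type) [PartialOrder T] (X : Set T) (A : T → Set T) (e : T → T → ℕ),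
  (∀ a b x : T, a ≤ x → b ≤ x → a ≤ b ∨ b ≤ a) → (∀ x : T, (Iic x).Countable) →
  (∀ C : Set T, IsChain (· ≤ ·) C → C.Countable) → CCC (Cond X A e)

/-- `FWM.Unc` (40 lines). In a ccc order, for a family `f x` (`x ∈ X`, `X` uncountable) there is a `p`
such that every `q ≤ p` is compatible with `f x` for uncountably many `x ∈ X`. (Otherwise
`Q = {q | {x ∈ X | f x and q compatible} countable}` is dense; a maximal antichain contained in `Q`
(Zorn) is countable; choose `x ∈ X` incompatible with all of its members; some `q ≤ f x` is in `Q` and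
can be added to it.) -/
def TaskUnc : Prop := ∀ (P : Type) [PartialOrder P], CCC P → ∀ (ι : Type) (X : Set ι) (f : ι → P),
  ¬ X.Countable → ∃ p : P, ∀ q, q ≤ p → ¬ {x ∈ X | ∃ r, r ≤ q ∧ r ≤ f x}.Countable

/-- `FWM.MA` (80 lines). Apply `MA1` to the conditions below the `p` of `TaskUnc` for
`f x = ({x}, ∅)`, `x ∈ X`, and the dense sets `{q | ∃ n, (u, n) ∈ q.prom}` (`u` below an element of
`X`) and `{q | ∃ x ∈ q.nodes, x ∈ X \ Y}` (`Y` an initial segment of `X` in a well-order of type `ω₁`). -/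
def TaskMA : Prop := TaskCCC → TaskUnc → MA1 → ∀ (T : Type) [PartialOrder T] (X : Set T)
  (A : T → Set T) (e : T → T → ℕ),
  (∀ a b x : T, a ≤ x → b ≤ x → a ≤ b ∨ b ≤ a) → (∀ x : T, (Iic x).Countable) →
  (∀ C : Set T, IsChain (· ≤ ·) C → C.Countable) → Cardinal.mk X = Cardinal.aleph 1 →
  (∀ x ∈ X, ∀ u, u < x → ∃ d ∈ A u, u < d ∧ d ≤ x) →
  ∃ (Y : Set T) (g : T → ℕ), Y ⊆ X ∧ ¬ Y.Countable ∧
    ∀ x ∈ Y, ∀ u, u < x → ∃ d ∈ A u, u < d ∧ d ≤ x ∧ e u d ≤ g u

end Pool.Agent.Q303.FWM
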