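import Pool.Agent.Q303.FWM.Stmts

set_option autoImplicit false

open Set

namespace Pool.Agent.Q303.FWM.TaskCCC

theorem pig {P β : Type} (S : Set P) (g : P → β) (C : Set β) (hC : C.Countable)
    (hg : ∀ p ∈ S, g p ∈ C) (hS : ¬ S.Countable) : ∃ c ∈ C, ¬ {p ∈ S | g p = c}.Countable := by
  by_contra hcon
  push Not at hcon
  apply hS
  have h : S ⊆ ⋃ c ∈ C, {p ∈ S | g p = c} := by
    intro p hp
    simp only [Set.mem_iUnion]
    exact ⟨g p, hg p hp, hp, rfl⟩
  exact (hC.biUnion hcon).mono h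

/-- thinning out -/
theorem thin {P T : Type} [DecidableEq T] (U : P → Finset T) (𝒜 : Set P) (h𝒜 : ¬ 𝒜.Countable) :
    ∃ (R : Finset T) (𝓑 : Set P), 𝓑 ⊆ 𝒜 ∧ ¬ 𝓑.Countable ∧ (∀ p ∈ 𝓑, R ⊆ U p) ∧
      ∀ u ∉ R, {p ∈ 𝓑 | u ∈ U p}.Countable := by
  classical
  obtain ⟨m, -, hm⟩ := pig 𝒜 (fun p => (U p).card) Set.univ Set.countable_univ
    (fun _ _ => Set.mem_univ _) h𝒜
  let Q : ℕ → Prop := fun j => ∃ R : Finset T, R.card = j ∧
    ¬ {p ∈ {p ∈ 𝒜 | (U p).card = m} | R ⊆ U p}.Countable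
  have hQ0 : Q 0 := by
    refine ⟨∅, rfl, ?_⟩
    simpa using hm
  have hQb : ∀ j, Q j → j ≤ m := by
    rintro j ⟨R, hR, hc⟩
    have hne : {p ∈ {p ∈ 𝒜 | (U p).card = m} | R ⊆ U p}.Nonempty := by
      by_contra h
      rw [Set.not_nonempty_iff_eq_empty] at h
      rw [h] at hc
      exact hc Set.countable_empty
    obtain ⟨p, hp, hRp⟩ := hne
    have := Finset.card_le_card hRp
    rw [hR, hp.2] at this
    exact this
  have hj : Q (Nat.findGreatest Q m) := Nat.findGreatest_spec (Nat.zero_le m) hQ0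
  have hmax : ¬ Q (Nat.findGreatest Q m + 1) := by
    intro h
    have := Nat.le_findGreatest (hQb _ h) h
    omega
  obtain ⟨R, hRj, hR⟩ := hj
  refine ⟨R, _, ?_, hR, fun p hp => hp.2, ?_⟩
  · intro p hp
    exact hp.1.1
  · intro u hu
    by_contra h
    apply hmax
    refine ⟨insert u R, by rw [Finset.card_insert_of_notMem hu, hRj], ?_⟩
    intro hc
    apply h
    refine hc.mono ?_
    rintro p ⟨⟨hp1, hp2⟩, hp3⟩
    exact ⟨hp1, Finset.insert_subset hp3 hp2⟩

theorem main : TaskCCC := by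
  classical
  intro T _ X A e htree hIic hchain 𝒜 hA
  by_contra hunc
  let U : Cond X A e → Finset T := fun p => p.prom.image Prod.fst
  obtain ⟨R, 𝓑, hB𝒜, hB, hBR, hBu⟩ := thin U 𝒜 hunc
  obtain ⟨n, -, h3⟩ := pig 𝓑 (fun p => p.nodes.card) Set.univ Set.countable_univ
    (fun _ _ => Set.mem_univ _) hB
  have hcR : {w : T × ℕ | w.1 ∈ R}.Countable := by
    have h : {w : T × ℕ | w.1 ∈ R} ⊆ (R : Set T) ×ˢ (Set.univ : Set ℕ) := by
      intro w hw
      exact ⟨hw, Set.mem_univ _⟩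
    exact (R.countable_toSet.prod Set.countable_univ).mono h
  obtain ⟨F, -, h4⟩ := pig {p ∈ 𝓑 | p.nodes.card = n}
    (fun p => {w : T × ℕ | w ∈ p.prom ∧ w.1 ∈ R})
    {t : Set (T × ℕ) | t.Finite ∧ t ⊆ {w : T × ℕ | w.1 ∈ R}}
    (Set.countable_setOf_finite_subset hcR)
    (fun p _ => ⟨(p.prom.finite_toSet).subset fun w hw => hw.1, fun w hw => hw.2⟩) h3
  set D : Set (Cond X A e) := {p ∈ {p ∈ 𝓑 | p.nodes.card = n} |
    {w : T × ℕ | w ∈ p.prom ∧ w.1 ∈ R} = F} with hD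
  have hDu : ∀ u ∉ R, {p ∈ D | u ∈ U p}.Countable := by
    intro u hu
    refine (hBu u hu).mono ?_
    rintro p ⟨hp, hpu⟩
    exact ⟨hp.1.1, hpu⟩
  have hpr : ∀ p ∈ D, ∀ q ∈ D, ∀ w ∈ q.prom, w.1 ∈ R → w ∈ p.prom := by
    intro p hp q hq w hw hwR
    have h1 : w ∈ {w : T × ℕ | w ∈ q.prom ∧ w.1 ∈ R} := ⟨hw, hwR⟩
    rw [hq.2, ← hp.2] at h1
    exact h1.1
  have hinc : ∀ p ∈ D, ∀ q ∈ D, p ≠ q → (∃ x ∈ p.nodes, ∃ u ∈ U q, u ∉ R ∧ u < x) ∨
      (∃ x ∈ q.nodes, ∃ u ∈ U p, u ∉ R ∧ u < x) := by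
    intro p hp q hq hpq
    by_contra hcon
    rw [not_or] at hcon
    obtain ⟨h1, h2⟩ := hcon
    refine hA p (hB𝒜 hp.1.1) q (hB𝒜 hq.1.1) hpq
      ⟨⟨p.nodes ∪ q.nodes, p.prom ∪ q.prom, ?_, ?_⟩,
        ⟨Finset.subset_union_left, Finset.subset_union_left⟩,
        ⟨Finset.subset_union_right, Finset.subset_union_right⟩⟩
    · intro x hx
      rcases Finset.mem_union.1 hx with h | h
      · exact p.sub x h
      · exact q.sub x h
    · intro x hx w hw
      rcases Finset.mem_union.1 hx with hx' | hx' <;> rcases Finset.mem_union.1 hw with hw' | hw'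
      · exact p.keeps x hx' w hw'
      · by_cases hwR : w.1 ∈ R
        · exact p.keeps x hx' w (hpr p hp q hq w hw' hwR)
        · intro hlt
          exact absurd ⟨x, hx', w.1, Finset.mem_image_of_mem _ hw', hwR, hlt⟩ h1
      · by_cases hwR : w.1 ∈ R
        · exact q.keeps x hx' w (hpr q hq p hp w hw' hwR)
        · intro hlt
          exact absurd ⟨x, hx', w.1, Finset.mem_image_of_mem _ hw', hwR, hlt⟩ h2
      · exact q.keeps x hx' w hw'
  -- for fixed `p` the first alternative holds for countably many `q`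
  have hfirst : ∀ p ∈ D, {q ∈ D | ∃ x ∈ p.nodes, ∃ u ∈ U q, u ∉ R ∧ u < x}.Countable := by
    intro p _
    have h : {q ∈ D | ∃ x ∈ p.nodes, ∃ u ∈ U q, u ∉ R ∧ u < x} ⊆
        ⋃ x ∈ (p.nodes : Set T), ⋃ u ∈ {u ∈ Iic x | u ∉ R}, {q ∈ D | u ∈ U q} := by
      rintro q ⟨hq, x, hx, u, hu, huR, hlt⟩
      simp only [Set.mem_iUnion]
      exact ⟨x, hx, u, ⟨hlt.le, huR⟩, hq, hu⟩
    refine Set.Countable.mono h ?_
    refine p.nodes.countable_toSet.biUnion fun x _ => ?_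
    refine Set.Countable.biUnion ((hIic x).mono fun u hu => hu.1) fun u hu => ?_
    exact hDu u hu.2
  let f : Filter (Cond X A e) :=
    { sets := {s | (D \ s).Countable}
      univ_sets := by simp
      sets_of_superset := by
        intro s t hs hst
        exact Set.Countable.mono (Set.diff_subset_diff_right hst) hs
      inter_sets := by
        intro s t hs ht
        have h : D \ (s ∩ t) = (D \ s) ∪ (D \ t) := Set.diff_inter
        show (D \ (s ∩ t)).Countable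
        rw [h]
        exact Set.Countable.union hs ht }
  have hf : f.NeBot := by
    rw [Filter.neBot_iff]
    intro hbot
    have h : (∅ : Set (Cond X A e)) ∈ f := by
      rw [hbot]
      exact Filter.mem_bot
    have h' : (D \ ∅).Countable := h
    rw [Set.diff_empty] at h'
    exact h4 h'
  let 𝓤 : Ultrafilter (Cond X A e) := Ultrafilter.of f
  have h𝓤 : (𝓤 : Filter (Cond X A e)) ≤ f := Ultrafilter.of_le f
  let s : Fin n → T → Set (Cond X A e) := fun i u =>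
    {q | ∃ y, q.nodes.toList[(i : ℕ)]? = some y ∧ u < y}
  have key : ∀ p ∈ D, ∃ i : Fin n, ∃ u ∈ U p, u ∉ R ∧ s i u ∈ 𝓤 := by
    intro p hp
    have hlarge : (⋃ z ∈ {z : Fin n × T | z.2 ∈ U p ∧ z.2 ∉ R}, s z.1 z.2) ∈ f := by
      show (D \ _).Countable
      have h : D \ (⋃ z ∈ {z : Fin n × T | z.2 ∈ U p ∧ z.2 ∉ R}, s z.1 z.2) ⊆
          {p} ∪ {q ∈ D | ∃ x ∈ p.nodes, ∃ u ∈ U q, u ∉ R ∧ u < x} := by
        rintro q ⟨hq, hnot⟩
        by_cases hpq : p = q
        · left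
          exact hpq.symm
        · right
          refine ⟨hq, ?_⟩
          rcases hinc p hp q hq hpq with h | ⟨x, hx, u, hu, huR, hlt⟩
          · exact h
          · exfalso
            apply hnot
            simp only [Set.mem_iUnion]
            have hx' : x ∈ q.nodes.toList := Finset.mem_toList.2 hx
            obtain ⟨j, hj⟩ := List.mem_iff_getElem?.1 hx'
            have hjn : j < n := by
              obtain ⟨hjl, -⟩ := List.getElem?_eq_some_iff.1 hj
              rw [Finset.length_toList, hq.1.2] at hjl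
              exact hjl
            exact ⟨(⟨j, hjn⟩, u), ⟨hu, huR⟩, x, hj, hlt⟩
      exact ((Set.countable_singleton p).union (hfirst p hp)).mono h
    have hfin : {z : Fin n × T | z.2 ∈ U p ∧ z.2 ∉ R}.Finite := by
      refine ((Finset.univ : Finset (Fin n)) ×ˢ (U p)).finite_toSet.subset ?_
      intro z hz
      simp only [Finset.coe_product, Set.mem_prod, Finset.mem_coe, Finset.mem_univ, true_and]
      exact hz.1
    obtain ⟨z, hz, hz'⟩ := (Ultrafilter.finite_biUnion_mem_iff hfin).1 (h𝓤 hlarge)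
    exact ⟨z.1, z.2, hz.1, hz.2, hz'⟩
  apply h4
  have hcov : D ⊆ ⋃ i : Fin n, ⋃ u ∈ {u : T | u ∉ R ∧ s i u ∈ 𝓤}, {p ∈ D | u ∈ U p} := by
    intro p hp
    obtain ⟨i, u, hu, huR, hs⟩ := key p hp
    simp only [Set.mem_iUnion]
    exact ⟨i, u, ⟨huR, hs⟩, hp, hu⟩
  refine Set.Countable.mono hcov (Set.countable_iUnion fun i => ?_)
  refine Set.Countable.biUnion (hchain _ ?_) fun u hu => hDu u hu.1
  intro u hu v hv _
  have hmem : s i u ∩ s i v ∈ (𝓤 : Filter (Cond X A e)) := Filter.inter_mem hu.2 hv.2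
  obtain ⟨q, ⟨y, hy, huy⟩, ⟨y', hy', hvy⟩⟩ := Ultrafilter.nonempty_of_mem hmem
  have hyy : y = y' := by
    rw [hy] at hy'
    exact Option.some.inj hy'
  subst hyy
  exact htree u v y huy.le hvy.le

end Pool.Agent.Q303.FWM.TaskCCC
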