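import Pool.Agent.Q303.FWM.Stmts

set_option autoImplicit false

open Set Filter

namespace Pool.Agent.Q303.FWM.CCC45

theorem pigeon {α β : Type*} {S : Set α} (hS : ¬ S.Countable) (f : α → β) {D : Set β}
    (hD : D.Countable) (hf : ∀ a ∈ S, f a ∈ D) : ∃ b ∈ D, ¬ {a ∈ S | f a = b}.Countable := by
  by_contra h
  push Not at h
  apply hS
  have : S ⊆ ⋃ b ∈ D, {a ∈ S | f a = b} := fun a ha => mem_iUnion₂.mpr ⟨f a, hf a ha, ha, rfl⟩
  exact (hD.biUnion h).mono this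

theorem main : Pool.Agent.Q303.FWM.TaskCCC := by
  classical
  intro T _ X A e htree hIic hchain 𝒜 hanti
  by_contra hunc
  obtain ⟨n, _, h1⟩ := pigeon hunc (fun p : Cond X A e => p.nodes.card) (countable_univ)
    (fun _ _ => mem_univ _)
  obtain ⟨m, _, h2⟩ := pigeon h1 (fun p : Cond X A e => p.prom.card) countable_univ
    (fun _ _ => mem_univ _)
  obtain ⟨𝒜2, h𝒜2⟩ : ∃ B : Set (Cond X A e), B =
    {a | a ∈ {a | a ∈ 𝒜 ∧ a.nodes.card = n} ∧ a.prom.card = m} := ⟨_, rfl⟩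
  have h2' : ¬ 𝒜2.Countable := by rw [h𝒜2]; exact h2
  have m1 : ∀ p ∈ 𝒜2, p ∈ 𝒜 := by rw [h𝒜2]; exact fun p hp => hp.1.1
  have m2 : ∀ p ∈ 𝒜2, p.nodes.card = n := by rw [h𝒜2]; exact fun p hp => hp.1.2
  have m3 : ∀ p ∈ 𝒜2, p.prom.card = m := by rw [h𝒜2]; exact fun p hp => hp.2
  clear h𝒜2 h2 h1
  let U : Cond X A e → Finset T := fun p => p.prom.image Prod.fst
  have hex : ∃ R : Finset T, ¬ {p ∈ 𝒜2 | R ⊆ U p}.Countable ∧
      ∀ R' : Finset T, ¬ {p ∈ 𝒜2 | R' ⊆ U p}.Countable → R'.card ≤ R.card := by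
    let S : Set ℕ := {k | ∃ R : Finset T, R.card = k ∧ ¬ {p ∈ 𝒜2 | R ⊆ U p}.Countable}
    have hS1 : S.Nonempty := ⟨0, ∅, rfl, by simpa using h2'⟩
    have hS2 : BddAbove S := by
      refine ⟨m, ?_⟩
      rintro k ⟨R, rfl, hR⟩
      have : {p ∈ 𝒜2 | R ⊆ U p}.Nonempty := by
        by_contra h
        rw [not_nonempty_iff_eq_empty] at h
        exact hR (h ▸ countable_empty)
      obtain ⟨p, hp, hRp⟩ := this
      calc R.card ≤ (U p).card := Finset.card_le_card hRp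
        _ ≤ p.prom.card := Finset.card_image_le
        _ = m := m3 p hp
    obtain ⟨R, hR1, hR2⟩ := Nat.sSup_mem hS1 hS2
    exact ⟨R, hR2, fun R' hR' => by rw [hR1]; exact le_csSup hS2 ⟨R', rfl, hR'⟩⟩
  obtain ⟨R, hR, hmax⟩ := hex
  have hcount : ∀ u ∉ R, {p ∈ 𝒜2 | R ⊆ U p ∧ u ∈ U p}.Countable := by
    intro u hu
    by_contra hc
    have := hmax (insert u R) (fun h => hc (h.mono ?_))
    · rw [Finset.card_insert_of_notMem hu] at this
      omega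
    · rintro p ⟨hp, hRp, hup⟩
      exact ⟨hp, Finset.insert_subset hup hRp⟩
  obtain ⟨c, _, h4⟩ := pigeon hR (fun p : Cond X A e => p.prom.filter (fun w => w.1 ∈ R))
    (D := {s : Finset (T × ℕ) | (s : Set (T × ℕ)) ⊆ (R : Set T) ×ˢ (univ : Set ℕ)}) (by
      have hZ : ((R : Set T) ×ˢ (univ : Set ℕ)).Countable :=
        (R.countable_toSet).prod countable_univ
      refine ((Set.countable_setOf_finite_subset hZ).preimage_of_injOn
        (f := fun s : Finset (T × ℕ) => (s : Set (T × ℕ))) (Finset.coe_injective.injOn)).mono ?_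
      intro s hs
      exact ⟨s.finite_toSet, hs⟩) (by
      intro p _ w hw
      have := (Finset.mem_filter.mp (Finset.mem_coe.mp hw)).2
      exact ⟨this, mem_univ _⟩)
  obtain ⟨𝒜4, h𝒜4⟩ : ∃ B : Set (Cond X A e), B =
    {a | a ∈ {p | p ∈ 𝒜2 ∧ R ⊆ U p} ∧ a.prom.filter (fun w => w.1 ∈ R) = c} := ⟨_, rfl⟩
  have h4' : ¬ 𝒜4.Countable := by rw [h𝒜4]; exact h4
  have n1 : ∀ p ∈ 𝒜4, p ∈ 𝒜2 := by rw [h𝒜4]; exact fun p hp => hp.1.1
  have n2 : ∀ p ∈ 𝒜4, R ⊆ U p := by rw [h𝒜4]; exact fun p hp => hp.1.2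
  have n3 : ∀ p ∈ 𝒜4, p.prom.filter (fun w => w.1 ∈ R) = c := by
    rw [h𝒜4]; exact fun p hp => hp.2
  clear h𝒜4 h4
  have trans : ∀ p ∈ 𝒜4, ∀ q ∈ 𝒜4, ∀ w ∈ q.prom, w.1 ∈ R → w ∈ p.prom := by
    intro p hp q hq w hw hwR
    have : w ∈ q.prom.filter (fun w => w.1 ∈ R) := Finset.mem_filter.mpr ⟨hw, hwR⟩
    rw [n3 q hq, ← n3 p hp] at this
    exact (Finset.mem_filter.mp this).1
  have key : ∀ p ∈ 𝒜4, ∀ q ∈ 𝒜4, p ≠ q → (∃ x ∈ p.nodes, ∃ u ∈ U q, u ∉ R ∧ u < x) ∨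
      (∃ x ∈ q.nodes, ∃ u ∈ U p, u ∉ R ∧ u < x) := by
    intro p hp q hq hpq
    by_contra hcon
    rw [not_or] at hcon
    obtain ⟨hc1, hc2⟩ := hcon
    refine hanti p (m1 p (n1 p hp)) q (m1 q (n1 q hq)) hpq
      ⟨⟨p.nodes ∪ q.nodes, p.prom ∪ q.prom, ?_, ?_⟩,
        ⟨Finset.subset_union_left, Finset.subset_union_left⟩,
        ⟨Finset.subset_union_right, Finset.subset_union_right⟩⟩
    · intro x hx
      rcases Finset.mem_union.mp hx with h | h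
      · exact p.sub x h
      · exact q.sub x h
    · intro x hx w hw
      rcases Finset.mem_union.mp hx with h | h <;> rcases Finset.mem_union.mp hw with h' | h'
      · exact p.keeps x h w h'
      · by_cases hwR : w.1 ∈ R
        · exact p.keeps x h w (trans p hp q hq w h' hwR)
        · intro hlt
          exact absurd ⟨x, h, w.1, Finset.mem_image_of_mem _ h', hwR, hlt⟩ hc1
      · by_cases hwR : w.1 ∈ R
        · exact q.keeps x h w (trans q hq p hp w h' hwR)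
        · intro hlt
          exact absurd ⟨x, h, w.1, Finset.mem_image_of_mem _ h', hwR, hlt⟩ hc2
      · exact q.keeps x h w h'
  have hfew : ∀ p ∈ 𝒜4, {q ∈ 𝒜4 | ∃ x ∈ p.nodes, ∃ u ∈ U q, u ∉ R ∧ u < x}.Countable := by
    intro p hp
    have hsub : {q ∈ 𝒜4 | ∃ x ∈ p.nodes, ∃ u ∈ U q, u ∉ R ∧ u < x} ⊆
        ⋃ x ∈ (p.nodes : Set T), ⋃ u ∈ (Iic x ∩ {u | u ∉ R}),
          {q ∈ 𝒜2 | R ⊆ U q ∧ u ∈ U q} := by
      rintro q ⟨hq, x, hx, u, hu, huR, hux⟩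
      exact mem_iUnion₂.mpr ⟨x, hx, mem_iUnion₂.mpr ⟨u, ⟨hux.le, huR⟩, n1 q hq, n2 q hq, hu⟩⟩
    exact ((p.nodes.countable_toSet).biUnion fun x _ =>
      ((hIic x).mono inter_subset_left).biUnion fun u hu => hcount u hu.2).mono hsub
  have hne : (Filter.cocountable ⊓ 𝓟 𝒜4 : Filter (Cond X A e)).NeBot := by
    rw [Filter.inf_principal_neBot_iff]
    intro V hV
    rw [Filter.mem_cocountable] at hV
    by_contra h
    apply h4'
    refine hV.mono fun q hq hqV => h ⟨q, hqV, hq⟩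
  let 𝒰 : Ultrafilter (Cond X A e) := Ultrafilter.of (Filter.cocountable ⊓ 𝓟 𝒜4)
  have hle : (𝒰 : Filter (Cond X A e)) ≤ Filter.cocountable ⊓ 𝓟 𝒜4 := Ultrafilter.of_le _
  let C : ℕ → Set T := fun i =>
    {u | {q : Cond X A e | ∃ x, q.nodes.toList[i]? = some x ∧ u < x} ∈ 𝒰}
  have hC : ∀ i, (C i).Countable := by
    intro i
    apply hchain
    intro u hu v hv _
    obtain ⟨q, ⟨x, hx, hux⟩, ⟨y, hy, hvy⟩⟩ := 𝒰.nonempty_of_mem (inter_mem hu hv)
    have hxy : x = y := by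
      rw [hx] at hy
      exact Option.some.inj hy
    subst hxy
    exact htree u v x hux.le hvy.le
  have h6 : ∀ p ∈ 𝒜4, ∃ i, ∃ u ∈ C i, u ∉ R ∧ u ∈ U p := by
    intro p hp
    have ha : 𝒜4 ∈ (𝒰 : Filter (Cond X A e)) := hle (mem_inf_of_right (mem_principal_self _))
    have hb : ({q ∈ 𝒜4 | ∃ x ∈ p.nodes, ∃ u ∈ U q, u ∉ R ∧ u < x} ∪ {p})ᶜ ∈
        (𝒰 : Filter (Cond X A e)) := by
      refine hle (mem_inf_of_left ?_)
      rw [Filter.mem_cocountable, compl_compl]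
      exact (hfew p hp).union (countable_singleton p)
    have hun : (⋃ w ∈ ((U p ×ˢ Finset.range n : Finset (T × ℕ)) : Set (T × ℕ)),
        {q : Cond X A e | w.1 ∉ R ∧ ∃ x, q.nodes.toList[w.2]? = some x ∧ w.1 < x}) ∈ 𝒰 := by
      refine mem_of_superset (inter_mem ha hb) ?_
      rintro q ⟨hq, hq'⟩
      have hpq : p ≠ q := fun h => hq' (Or.inr h.symm)
      rcases key p hp q hq hpq with h | ⟨x, hx, u, hu, huR, hux⟩
      · exact absurd (Or.inl ⟨hq, h⟩) hq'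
      · rw [← Finset.mem_toList, List.mem_iff_getElem?] at hx
        obtain ⟨i, hi⟩ := hx
        have hin : i < n := by
          have := (List.getElem?_eq_some_iff.mp hi).1
          rw [Finset.length_toList, m2 q (n1 q hq)] at this
          exact this
        refine mem_iUnion₂.mpr ⟨(u, i), ?_, huR, x, hi, hux⟩
        rw [Finset.mem_coe, Finset.mem_product]
        exact ⟨hu, Finset.mem_range.mpr hin⟩
    rw [Ultrafilter.finite_biUnion_mem_iff (Finset.finite_toSet _)] at hun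
    obtain ⟨⟨u, i⟩, hui, hmem⟩ := hun
    rw [Finset.mem_coe, Finset.mem_product] at hui
    obtain ⟨q, hq⟩ := 𝒰.nonempty_of_mem hmem
    exact ⟨i, u, mem_of_superset hmem (fun q hq => hq.2), hq.1, hui.1⟩
  apply h4'
  have hsub : 𝒜4 ⊆ ⋃ i : ℕ, ⋃ u ∈ (C i ∩ {u | u ∉ R}), {q ∈ 𝒜2 | R ⊆ U q ∧ u ∈ U q} := by
    intro p hp
    obtain ⟨i, u, hu, huR, hup⟩ := h6 p hp
    exact mem_iUnion.mpr ⟨i, mem_iUnion₂.mpr ⟨u, ⟨hu, huR⟩, n1 p hp, n2 p hp, hup⟩⟩
  exact (countable_iUnion fun i => ((hC i).mono inter_subset_left).biUnion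
    fun u hu => hcount u hu.2).mono hsub

end Pool.Agent.Q303.FWM.CCC45
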