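import Pool.Agent.Q303.FWM.Stmts

/-!
# Martin's axiom and the finite conditions
-/

set_option autoImplicit false

open Set

namespace Pool.Agent.Q303.FWM.TaskMA

open Pool.Agent.Q303.FWM

theorem main : Pool.Agent.Q303.FWM.TaskMA := by
  classical
  intro hCCC hUnc hMA T _ X A e h1 h2 h3 hX hA
  have hccc : CCC (Cond X A e) := hCCC T X A e h1 h2 h3
  -- the conditions `({x}, ∅)`
  let f : X → Cond X A e := fun x =>
    { nodes := {x.1}
      prom := ∅
      sub := by
        intro y hy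
        rw [Finset.mem_singleton] at hy
        rw [hy]
        exact x.2
      keeps := by
        intro y _ w hw
        exact absurd hw (Finset.notMem_empty _) }
  have hXc : ¬ (Set.univ : Set X).Countable := by
    intro h
    rw [Set.countable_univ_iff] at h
    have h' := Cardinal.mk_le_aleph0_iff.2 h
    rw [hX] at h'
    exact absurd h' (not_le.2 Cardinal.aleph0_lt_aleph_one)
  obtain ⟨p, hp⟩ := hUnc (Cond X A e) hccc X Set.univ f hXc
  -- the order of the conditions below `p`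
  let P : Type := {q : Cond X A e // q ≤ p}
  haveI : Nonempty P := ⟨⟨p, le_refl p⟩⟩
  have hcccP : CCC P := by
    intro S hS
    have h4 : ((fun q : P => q.1) '' S).Countable := by
      apply hccc
      rintro _ ⟨a, ha, rfl⟩ _ ⟨b, hb, rfl⟩ hab ⟨r, hr1, hr2⟩
      refine hS a ha b hb (fun h => hab (by rw [h])) ⟨⟨r, hr1.trans a.2⟩, hr1, hr2⟩
    exact countable_of_injective_of_countable_image (fun a _ b _ h => Subtype.ext h) h4
  -- a well-order of `X`
  have hW : Cardinal.mk X = Cardinal.mk (Cardinal.aleph 1).ord.ToType := by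
    rw [hX, Cardinal.mk_ord_toType]
  obtain ⟨φ⟩ := Cardinal.eq.1 hW
  have hIio : ∀ a : (Cardinal.aleph 1).ord.ToType, (Iio a).Countable := by
    intro a
    rw [Cardinal.countable_iff_lt_aleph_one]
    exact Cardinal.mk_Iio_ord_toType a
  -- enumeration of the elements below the elements of `X`
  have hen : ∀ x : X, ∃ g : ℕ → T, Iic x.1 = range g := fun x =>
    (h2 x.1).exists_eq_range ⟨x.1, le_refl _⟩
  choose en hen using hen
  -- the dense sets
  let F : (X × ℕ) ⊕ (Cardinal.aleph 1).ord.ToType → Set P := fun z =>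
    match z with
    | Sum.inl z => {q : P | ∃ n, (en z.1 z.2, n) ∈ q.1.prom}
    | Sum.inr a => {q : P | ∃ x : X, x.1 ∈ q.1.nodes ∧ a ≤ φ x}
  have hD : Cardinal.mk (range F) ≤ Cardinal.aleph 1 := by
    refine Cardinal.mk_range_le.trans ?_
    rw [Cardinal.mk_sum, Cardinal.mk_prod, Cardinal.lift_id, Cardinal.lift_id, Cardinal.lift_id,
      Cardinal.lift_id, hX, Cardinal.mk_nat, Cardinal.mk_ord_toType,
      Cardinal.mul_aleph0_eq (Cardinal.aleph0_le_aleph 1),
      Cardinal.add_eq_self (Cardinal.aleph0_le_aleph 1)]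
  have hdense : ∀ d ∈ range F, ∀ q : P, ∃ r ∈ d, r ≤ q := by
    rintro _ ⟨z, rfl⟩ q
    rcases z with z | a
    · -- a promise for `u`
      have hm : ∀ x : T, ∃ m : ℕ, x ∈ X → Keeps A e x (en z.1 z.2) m := by
        intro x
        by_cases hx : x ∈ X
        · by_cases hux : en z.1 z.2 < x
          · obtain ⟨d, hd, hd1, hd2⟩ := hA x hx _ hux
            exact ⟨e (en z.1 z.2) d, fun _ _ => ⟨d, hd, hd1, hd2, le_refl _⟩⟩
          · exact ⟨0, fun _ h => absurd h hux⟩
        · exact ⟨0, fun h => absurd h hx⟩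
      choose m hm using hm
      let n : ℕ := q.1.nodes.sup m
      let q' : Cond X A e :=
        { nodes := q.1.nodes
          prom := insert (en z.1 z.2, n) q.1.prom
          sub := q.1.sub
          keeps := by
            intro x hx w hw
            rcases Finset.mem_insert.1 hw with rfl | hw
            · intro hux
              obtain ⟨d, hd, hd1, hd2, hd3⟩ := hm x (q.1.sub x hx) hux
              exact ⟨d, hd, hd1, hd2, hd3.trans (Finset.le_sup (f := m) hx)⟩
            · exact q.1.keeps x hx w hw }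
      have hq' : q' ≤ q.1 := ⟨Finset.Subset.refl _, Finset.subset_insert _ _⟩
      exact ⟨⟨q', hq'.trans q.2⟩, ⟨n, Finset.mem_insert_self _ _⟩, hq'⟩
    · -- a node beyond `a`
      have h5 := hp q.1 q.2
      have h6 : ({x : X | φ x < a}).Countable := (hIio a).preimage φ.injective
      obtain ⟨x, hx, hxa⟩ : ∃ x ∈ {x ∈ (Set.univ : Set X) | ∃ r, r ≤ q.1 ∧ r ≤ f x},
          x ∉ {x : X | φ x < a} := by
        by_contra hcon
        push Not at hcon
        exact h5 (h6.mono hcon)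
      obtain ⟨-, r, hr1, hr2⟩ := hx
      refine ⟨⟨r, hr1.trans q.2⟩, ⟨x, ?_, not_lt.1 hxa⟩, hr1⟩
      exact hr2.1 (Finset.mem_singleton_self _)
  obtain ⟨G, -, hG2, hG3⟩ := hMA P hcccP (range F) hD hdense
  -- the promises
  have hg : ∀ u : T, ∃ n : ℕ, (∃ q ∈ G, ∃ n, (u, n) ∈ q.1.prom) → ∃ q ∈ G, (u, n) ∈ q.1.prom := by
    intro u
    by_cases hu : ∃ q ∈ G, ∃ n, (u, n) ∈ q.1.prom
    · obtain ⟨q, hq, n, hn⟩ := hu
      exact ⟨n, fun _ => ⟨q, hq, hn⟩⟩
    · exact ⟨0, fun h => absurd h hu⟩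
  choose g hg using hg
  refine ⟨{x | ∃ q ∈ G, x ∈ q.1.nodes}, g, ?_, ?_, ?_⟩
  · rintro x ⟨q, _, hx⟩
    exact q.1.sub x hx
  · intro hY
    have hcov : (Set.univ : Set (Cardinal.aleph 1).ord.ToType) ⊆
        ⋃ x ∈ {x : X | ∃ q ∈ G, x.1 ∈ q.1.nodes}, Iic (φ x) := by
      intro a _
      obtain ⟨q, hq, x, hx, hax⟩ := hG3 (F (Sum.inr a)) ⟨Sum.inr a, rfl⟩
      exact mem_biUnion (show x ∈ {x : X | ∃ q ∈ G, x.1 ∈ q.1.nodes} from ⟨q, hq, hx⟩) hax
    have hYc : ({x : X | ∃ q ∈ G, x.1 ∈ q.1.nodes}).Countable :=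
      hY.preimage Subtype.val_injective
    have hIic : ∀ a : (Cardinal.aleph 1).ord.ToType, (Iic a).Countable := by
      intro a
      rw [← Iio_union_right]
      exact (hIio a).union (countable_singleton a)
    have hun : (Set.univ : Set (Cardinal.aleph 1).ord.ToType).Countable :=
      (hYc.biUnion fun x _ => hIic (φ x)).mono hcov
    rw [Set.countable_univ_iff] at hun
    have h' := Cardinal.mk_le_aleph0_iff.2 hun
    rw [Cardinal.mk_ord_toType] at h'
    exact absurd h' (not_le.2 Cardinal.aleph0_lt_aleph_one)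
  · rintro x ⟨q, hq, hx⟩ u hux
    have hxX : x ∈ X := q.1.sub x hx
    have hu : u ∈ range (en ⟨x, hxX⟩) := by
      rw [← hen ⟨x, hxX⟩]
      exact hux.le
    obtain ⟨k, rfl⟩ := hu
    obtain ⟨q1, hq1, n, hn⟩ := hG3 (F (Sum.inl (⟨x, hxX⟩, k)))
      ⟨Sum.inl (⟨x, hxX⟩, k), rfl⟩
    obtain ⟨q2, hq2, hn2⟩ := hg (en ⟨x, hxX⟩ k) ⟨q1, hq1, n, hn⟩
    obtain ⟨r, hr, hr1, hr2⟩ := hG2 q hq q2 hq2
    exact r.1.keeps x (hr1.1 hx) _ (hr2.2 hn2) hux

end Pool.Agent.Q303.FWM.TaskMA
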