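import Pool.Agent.Q303.FWM.Stmts

set_option autoImplicit false

open Set

namespace Pool.Agent.Q303.FWM.TaskUnc

theorem main : Pool.Agent.Q303.FWM.TaskUnc := by
  intro P _ hP ι X f hX
  by_contra hcon
  push Not at hcon
  obtain ⟨A, hA⟩ := zorn_subset
    {A : Set P | (∀ a ∈ A, {x ∈ X | ∃ r, r ≤ a ∧ r ≤ f x}.Countable) ∧
      ∀ p ∈ A, ∀ q ∈ A, p ≠ q → ¬ ∃ r, r ≤ p ∧ r ≤ q} (by
    intro c hc hch
    refine ⟨⋃₀ c, ⟨?_, ?_⟩, fun s hs => subset_sUnion_of_mem hs⟩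
    · rintro a ⟨s, hs, ha⟩
      exact (hc hs).1 a ha
    · rintro p ⟨s, hs, hp⟩ q ⟨t, ht, hq⟩ hpq
      rcases hch.total hs ht with h | h
      · exact (hc ht).2 p (h hp) q hq hpq
      · exact (hc hs).2 p hp q (h hq) hpq)
  have hAc : A.Countable := hP A hA.prop.2
  have hU : (⋃ a ∈ A, {x ∈ X | ∃ r, r ≤ a ∧ r ≤ f x}).Countable :=
    hAc.biUnion fun a ha => hA.prop.1 a ha
  obtain ⟨x, hx, hxU⟩ : ∃ x ∈ X, x ∉ ⋃ a ∈ A, {x ∈ X | ∃ r, r ≤ a ∧ r ≤ f x} := by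
    by_contra h
    push Not at h
    exact hX (hU.mono h)
  have hinc : ∀ a ∈ A, ¬ ∃ r, r ≤ a ∧ r ≤ f x := fun a ha hr =>
    hxU (mem_biUnion ha ⟨hx, hr⟩)
  obtain ⟨q, hq, hqc⟩ := hcon (f x)
  have hins : insert q A ∈ {A : Set P | (∀ a ∈ A, {x ∈ X | ∃ r, r ≤ a ∧ r ≤ f x}.Countable) ∧
      ∀ p ∈ A, ∀ q ∈ A, p ≠ q → ¬ ∃ r, r ≤ p ∧ r ≤ q} := by
    refine ⟨?_, ?_⟩
    · intro a ha
      rcases mem_insert_iff.1 ha with rfl | ha
      · exact hqc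
      · exact hA.prop.1 a ha
    · intro a ha b hb hab
      rcases mem_insert_iff.1 ha with ha1 | ha1
      · rcases mem_insert_iff.1 hb with hb1 | hb1
        · exact absurd (ha1.trans hb1.symm) hab
        · rintro ⟨r, h1, h2⟩
          rw [ha1] at h1
          exact hinc b hb1 ⟨r, h2, h1.trans hq⟩
      · rcases mem_insert_iff.1 hb with hb1 | hb1
        · rintro ⟨r, h1, h2⟩
          rw [hb1] at h2
          exact hinc a ha1 ⟨r, h1, h2.trans hq⟩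
        · exact hA.prop.2 a ha1 b hb1 hab
  have hqA : q ∈ A := hA.le_of_ge hins (subset_insert q A) (mem_insert q A)
  exact hinc q hqA ⟨q, le_refl q, hq⟩

end Pool.Agent.Q303.FWM.TaskUnc
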